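import Pool.Agent.Work.MP_340ce7_lc.Arc.Main

namespace Pool.Agent.Work.MP_340ce7_lc.Parked.ArcLattice

open Pool.Agent.Work.MP_340ce7_lc

theorem result (A : Set ℝ) (hi : ∀ α ∈ A, Irrational α)
    (hA : LinearIndepOn ℚ id (insert (1 : ℝ) A)) :
    ∃ e : {T : Set (ℝ × ℝ) // Adm A T} ≃o
      {S : Set (Σ n : ℕ, Set (Fin n → ℤ)) // (∃ M : Str, S = Dfs M) ∧
        Dfs (arcStr ∅) ⊆ S ∧ S ⊆ Dfs (arcStr (A ×ˢ Set.univ))},
      ∀ T, (e T).1 = Dfs (arcStr T.1) :=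
  arc_main A hi hA

end Pool.Agent.Work.MP_340ce7_lc.Parked.ArcLattice
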